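import Pool.Agent.Y762.GA.Stm

/-!
# Project GA (helper762), job NEC (helper409): necessity of the criterion
-/

open MeasureTheory Set Metric
open Pool.Agent.H639R3.G Pool.Agent.Y762.GA

namespace Pool.Agent.Y409.GA

theorem exists_psi (n : ℕ) (hn : 1 ≤ n) (N : ℕ → ℕ) (v : ℕ → ℝ) (hv : ∀ k, 0 ≤ v k)
    (hs : Summable (fun k => v k * ((N k : ℝ) + 1) ^ n)) :
    ∃ ψ : ℕ → ℝ, Admissible ψ ∧ Summable (fun k : ℕ => (k : ℝ) ^ (n - 1) * ψ k) ∧
      ∀ k j, j ≤ N k → v k < ψ j := by
  classical
  have hvs : Summable v := by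
    refine Summable.of_nonneg_of_le hv (fun k => ?_) hs
    exact le_mul_of_one_le_right (hv k) (one_le_pow₀ (by linarith [Nat.cast_nonneg (α := ℝ) (N k)]))
  have hnn : ∀ j k, 0 ≤ (if j ≤ N k then v k else 0) := by
    intro j k
    split_ifs
    · exact hv k
    · exact le_refl _
  have hfs : ∀ j : ℕ, Summable (fun k => if j ≤ N k then v k else 0) := by
    intro j
    refine Summable.of_nonneg_of_le (hnn j) (fun k => ?_) hvs
    split_ifs
    · exact le_refl _
    · exact hv k
  refine ⟨fun j => (1 / 2 : ℝ) ^ j + ∑' k, (if j ≤ N k then v k else 0), ⟨?_, ?_⟩, ?_, ?_⟩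
  · intro j _
    have : 0 ≤ ∑' k, (if j ≤ N k then v k else 0) := tsum_nonneg (hnn j)
    positivity
  · intro j k _ hjk
    have h1 : (1 / 2 : ℝ) ^ k ≤ (1 / 2) ^ j := pow_le_pow_of_le_one (by norm_num) (by norm_num) hjk
    have h2 : ∑' i, (if k ≤ N i then v i else 0) ≤ ∑' i, (if j ≤ N i then v i else 0) := by
      refine Summable.tsum_le_tsum (fun i => ?_) (hfs k) (hfs j)
      by_cases h3 : k ≤ N i
      · rw [if_pos h3, if_pos (hjk.trans h3)]
      · rw [if_neg h3]
        exact hnn j i
    exact add_le_add h1 h2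
  · have h1 : Summable (fun k : ℕ => (k : ℝ) ^ (n - 1) * (1 / 2 : ℝ) ^ k) :=
      summable_pow_mul_geometric_of_norm_lt_one (n - 1) (by norm_num)
    have h2 : Summable (fun j : ℕ => (j : ℝ) ^ (n - 1) * ∑' k, (if j ≤ N k then v k else 0)) := by
      apply summable_of_sum_range_le (c := ∑' k, v k * ((N k : ℝ) + 1) ^ n)
      · intro j
        have : 0 ≤ ∑' k, (if j ≤ N k then v k else 0) := tsum_nonneg (hnn j)
        positivity
      · intro J
        have e1 : ∑ j ∈ Finset.range J, (j : ℝ) ^ (n - 1) * ∑' k, (if j ≤ N k then v k else 0) =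
            ∑' k, ∑ j ∈ Finset.range J, (j : ℝ) ^ (n - 1) * (if j ≤ N k then v k else 0) := by
          rw [Summable.tsum_finsetSum (fun j _ => (hfs j).mul_left _)]
          apply Finset.sum_congr rfl
          intro j _
          rw [tsum_mul_left]
        rw [e1]
        refine Summable.tsum_le_tsum (fun k => ?_)
          (summable_sum (fun j _ => (hfs j).mul_left _)) hs
        have e2 : ∑ j ∈ Finset.range J, (j : ℝ) ^ (n - 1) * (if j ≤ N k then v k else 0) ≤
            ∑ j ∈ Finset.range (N k + 1), ((N k : ℝ) + 1) ^ (n - 1) * v k := by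
          calc ∑ j ∈ Finset.range J, (j : ℝ) ^ (n - 1) * (if j ≤ N k then v k else 0)
              = ∑ j ∈ (Finset.range J).filter (fun j => j ≤ N k), (j : ℝ) ^ (n - 1) * v k := by
                rw [Finset.sum_filter]
                apply Finset.sum_congr rfl
                intro j _
                split_ifs
                · rfl
                · simp
            _ ≤ ∑ j ∈ (Finset.range J).filter (fun j => j ≤ N k),
                  ((N k : ℝ) + 1) ^ (n - 1) * v k := by
                apply Finset.sum_le_sum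
                intro j hj
                have h3 : (j : ℝ) ≤ (N k : ℝ) + 1 := by
                  have := (Finset.mem_filter.1 hj).2
                  have h4 : (j : ℝ) ≤ (N k : ℝ) := by exact_mod_cast this
                  linarith
                exact mul_le_mul_of_nonneg_right (pow_le_pow_left₀ (Nat.cast_nonneg _) h3 _) (hv k)
            _ ≤ _ := by
                apply Finset.sum_le_sum_of_subset_of_nonneg
                · intro j hj
                  have := (Finset.mem_filter.1 hj).2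
                  exact Finset.mem_range.2 (by omega)
                · intro j _ _
                  exact mul_nonneg (by positivity) (hv k)
        refine e2.trans (le_of_eq ?_)
        rw [Finset.sum_const, Finset.card_range, nsmul_eq_mul]
        push_cast
        have : ((N k : ℝ) + 1) ^ n = ((N k : ℝ) + 1) * ((N k : ℝ) + 1) ^ (n - 1) := by
          rw [← pow_succ']
          congr 1
          omega
        rw [this]
        ring
    have := h1.add h2
    refine this.congr (fun k => ?_)
    ring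
  · intro k j hj
    have h1 : v k ≤ ∑' i, (if j ≤ N i then v i else 0) := by
      have := (hfs j).le_tsum k (fun i _ => hnn j i)
      rwa [if_pos hj] at this
    have h2 : (0 : ℝ) < (1 / 2 : ℝ) ^ j := by positivity
    show v k < (1 / 2 : ℝ) ^ j + ∑' i, (if j ≤ N i then v i else 0)
    linarith

theorem le_supNorm {k : ℕ} (q : Fin k → ℤ) (i : Fin k) : (q i).natAbs ≤ supNorm q := by
  unfold supNorm
  exact Finset.le_sup (f := fun i => (q i).natAbs) (Finset.mem_univ i)

theorem dist_smul_zero {k m : ℕ} (A : Matrix (Fin k) (Fin m) ℝ) (q : Fin m → ℤ)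
    (h0 : distIntVec (ev A q) = 0) (a : ℤ) : distIntVec (ev A (a • q)) = 0 := by
  have hint : ∀ i, ev A q i = round (ev A q i) := by
    intro i
    have := le_distIntVec (ev A q) i
    rw [h0] at this
    have := abs_nonpos_iff.1 this
    linarith
  apply le_antisymm _ (distIntVec_nonneg _)
  apply distIntVec_le (fun i => a * round (ev A q i)) le_rfl
  intro i
  rw [ev_smul]
  simp only [Pi.smul_apply, smul_eq_mul]
  push_cast
  rw [← hint i]
  simp

theorem step1 {d m : ℕ} (A : Matrix (Fin (d + 1)) (Fin m) ℝ)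
    (h : ∀ c : ℝ, 0 < c → ∃ q : Fin m → ℤ, q ≠ 0 ∧
      (supNorm q : ℝ) ^ (d + m) * distIntVec (ev A q) < c) (c : ℝ) (hc : 0 < c) (N : ℕ) :
    ∃ q : Fin m → ℤ, q ≠ 0 ∧ N ≤ supNorm q ∧
      (supNorm q : ℝ) ^ (d + m) * distIntVec (ev A q) < c := by
  by_cases hz : ∃ q : Fin m → ℤ, q ≠ 0 ∧ distIntVec (ev A q) = 0
  · obtain ⟨q, hq, h0⟩ := hz
    refine ⟨((N : ℤ) + 1) • q, smul_ne_zero (by omega) hq, ?_, ?_⟩
    · obtain ⟨i, hi⟩ := Function.ne_iff.1 hq
      have h1 := le_supNorm (((N : ℤ) + 1) • q) i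
      rw [Pi.smul_apply, smul_eq_mul, Int.natAbs_mul] at h1
      have h2 : 0 < (q i).natAbs := Int.natAbs_pos.2 hi
      have h3 : ((N : ℤ) + 1).natAbs = N + 1 := by omega
      rw [h3] at h1
      have h4 : N + 1 ≤ (N + 1) * (q i).natAbs := Nat.le_mul_of_pos_right _ h2
      omega
    · rw [dist_smul_zero A q h0, mul_zero]
      exact hc
  · push Not at hz
    have hfin : {q : Fin m → ℤ | q ≠ 0 ∧ supNorm q < N}.Finite := by
      refine (box m N).finite_toSet.subset ?_
      intro q hq
      have hq2 : supNorm q < N := hq.2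
      rw [Finset.mem_coe, mem_box]
      exact supNorm_le_iff.1 hq2.le
    obtain ⟨c0, hc0, hc1, hc2⟩ := exists_pos_le_finite hfin (fun q => distIntVec (ev A q))
      (fun q hq => lt_of_le_of_ne (distIntVec_nonneg _) (Ne.symm (hz q hq.1)))
    obtain ⟨q, hq, hlt⟩ := h (min c c0) (lt_min hc hc0)
    refine ⟨q, hq, ?_, hlt.trans_le (min_le_left _ _)⟩
    by_contra hcon
    push Not at hcon
    have h1 := hc2 q ⟨hq, hcon⟩
    have h2 : (1 : ℝ) ≤ (supNorm q : ℝ) ^ (d + m) := by
      apply one_le_pow₀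
      exact_mod_cast supNorm_pos hq
    have h3 : distIntVec (ev A q) ≤ (supNorm q : ℝ) ^ (d + m) * distIntVec (ev A q) :=
      le_mul_of_one_le_left (distIntVec_nonneg _) h2
    have h4 := hlt.trans_le (min_le_right _ _)
    linarith

theorem abs_ev_le {d m : ℕ} (A : Matrix (Fin (d + 1)) (Fin m) ℝ) (q : Fin m → ℤ)
    (i : Fin (d + 1)) : |ev A q i| ≤ (CA A - 1) * supNorm q := by
  have hq : ∀ j, |(q j : ℝ)| ≤ supNorm q := by
    intro j
    have h1 := le_supNorm q j
    rw [← Int.cast_abs, Int.abs_eq_natAbs]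
    exact_mod_cast h1
  unfold CA
  rw [add_sub_cancel_left]
  unfold ev Matrix.mulVec dotProduct
  calc |∑ j, A i j * (q j : ℝ)| ≤ ∑ j, |A i j * (q j : ℝ)| :=
        Finset.abs_sum_le_sum_abs _ _
    _ ≤ ∑ j, |A i j| * (supNorm q : ℝ) := by
        apply Finset.sum_le_sum
        intro j _
        rw [abs_mul]
        exact mul_le_mul_of_nonneg_left (hq j) (abs_nonneg _)
    _ = (∑ j, |A i j|) * (supNorm q : ℝ) := by rw [Finset.sum_mul]
    _ ≤ (∑ i, ∑ j, |A i j|) * (supNorm q : ℝ) := by
        apply mul_le_mul_of_nonneg_right _ (Nat.cast_nonneg _)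
        exact Finset.single_le_sum (f := fun i => ∑ j, |A i j|)
          (fun i _ => Finset.sum_nonneg fun j _ => abs_nonneg _) (Finset.mem_univ i)

/-- the vector attached to `q` -/
noncomputable def zz {d m : ℕ} (A : Matrix (Fin (d + 1)) (Fin m) ℝ) (q : Fin m → ℤ) :
    Fin (d + m) → ℤ :=
  Fin.append (fun i : Fin d => -round (ev A q i.succ)) q

theorem supNorm_zz_ge {d m : ℕ} (A : Matrix (Fin (d + 1)) (Fin m) ℝ) (q : Fin m → ℤ) :
    supNorm q ≤ supNorm (zz A q) := by
  unfold supNorm
  apply Finset.sup_le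
  intro j _
  have := le_supNorm (zz A q) (Fin.natAdd d j)
  unfold zz at this
  rw [Fin.append_right] at this
  exact this

theorem supNorm_zz_le {d m : ℕ} (A : Matrix (Fin (d + 1)) (Fin m) ℝ) {q : Fin m → ℤ}
    (hq : q ≠ 0) : supNorm (zz A q) ≤ ⌈CA A⌉₊ * supNorm q := by
  have hpos : 1 ≤ supNorm q := supNorm_pos hq
  have hC1 : 1 ≤ CA A := by
    unfold CA
    have : 0 ≤ ∑ i, ∑ j, |A i j| := Finset.sum_nonneg fun i _ => Finset.sum_nonneg fun j _ =>
      abs_nonneg _
    linarith
  have hC2 : CA A ≤ ⌈CA A⌉₊ := Nat.le_ceil _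
  have hC3 : 1 ≤ ⌈CA A⌉₊ := by
    have : (1 : ℝ) ≤ ⌈CA A⌉₊ := hC1.trans hC2
    exact_mod_cast this
  rw [supNorm_le_iff]
  intro i
  refine Fin.addCases (fun i => ?_) (fun j => ?_) i
  · unfold zz
    rw [Fin.append_left, abs_neg]
    have h1 := abs_ev_le A q i.succ
    have h2 := abs_sub_round (ev A q i.succ)
    have h3 : |(round (ev A q i.succ) : ℝ)| ≤ |ev A q i.succ| + 1 / 2 := by
      have h4 : (round (ev A q i.succ) : ℝ) =
        ev A q i.succ - (ev A q i.succ - round (ev A q i.succ)) := by ring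
      rw [h4]
      refine (abs_sub _ _).trans ?_
      linarith
    have h5 : (1 : ℝ) ≤ supNorm q := by exact_mod_cast hpos
    have h6 : |(round (ev A q i.succ) : ℝ)| ≤ (⌈CA A⌉₊ : ℝ) * supNorm q := by
      have h7 : CA A * (supNorm q : ℝ) ≤ (⌈CA A⌉₊ : ℝ) * supNorm q :=
        mul_le_mul_of_nonneg_right hC2 (Nat.cast_nonneg _)
      have h8 : (CA A - 1) * (supNorm q : ℝ) = CA A * supNorm q - supNorm q := by ring
      linarith
    rw [← Int.cast_abs] at h6
    exact_mod_cast h6
  · unfold zz
    rw [Fin.append_right, Int.abs_eq_natAbs]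
    have h1 := le_supNorm q j
    have h2 : supNorm q ≤ ⌈CA A⌉₊ * supNorm q := Nat.le_mul_of_pos_left _ hC3
    exact_mod_cast h1.trans h2

theorem value_le {d m : ℕ} (A : Matrix (Fin (d + 1)) (Fin m) ℝ) (q : Fin m → ℤ)
    {x : Fin d → ℝ} (hx : x ∈ closedBall (0 : Fin d → ℝ) 1) :
    |((-round (ev A q 0) : ℤ) : ℝ) + ∑ i, (zz A q i : ℝ) * point A x i| ≤
      (1 + d) * distIntVec (ev A q) := by
  have hx1 : ∀ i, |x i| ≤ 1 := by
    intro i
    have h1 : ‖x‖ ≤ 1 := by simpa using hx
    exact (norm_le_pi_norm x i).trans h1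
  rw [sum_point]
  have e1 : (fun j => zz A q (Fin.natAdd d j)) = q := by
    funext j
    unfold zz
    rw [Fin.append_right]
  have e2 : (fun i => zz A q (Fin.castAdd m i)) = fun i : Fin d => -round (ev A q i.succ) := by
    funext j
    unfold zz
    rw [Fin.append_left]
  rw [e1, e2]
  unfold aff acoef bvec
  have e3 : ((-round (ev A q 0) : ℤ) : ℝ) + (ev A q 0 + ∑ i : Fin d,
      (((-round (ev A q i.succ) : ℤ) : ℝ) + ev A q i.succ) * x i) =
      (ev A q 0 - round (ev A q 0)) + ∑ i : Fin d,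
        (ev A q i.succ - round (ev A q i.succ)) * x i := by
    push_cast
    have : ∀ i : Fin d, (-(round (ev A q i.succ) : ℝ) + ev A q i.succ) * x i =
        (ev A q i.succ - round (ev A q i.succ)) * x i := fun i => by ring
    simp only [this]
    ring
  rw [e3]
  have h1 := le_distIntVec (ev A q) 0
  have h2 : |∑ i : Fin d, (ev A q i.succ - round (ev A q i.succ)) * x i| ≤
      d * distIntVec (ev A q) := by
    refine (Finset.abs_sum_le_sum_abs _ _).trans ?_
    calc ∑ i : Fin d, |(ev A q i.succ - round (ev A q i.succ)) * x i|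
        ≤ ∑ _i : Fin d, distIntVec (ev A q) := by
          apply Finset.sum_le_sum
          intro i _
          rw [abs_mul]
          have h3 := le_distIntVec (ev A q) i.succ
          have h4 := mul_le_mul h3 (hx1 i) (abs_nonneg _) (distIntVec_nonneg _)
          rwa [mul_one] at h4
      _ = _ := by rw [Finset.sum_const, Finset.card_univ, Fintype.card_fin, nsmul_eq_mul]
  refine (abs_add_le _ _).trans ?_
  have e4 : (1 + (d : ℝ)) * distIntVec (ev A q) = distIntVec (ev A q) + d * distIntVec (ev A q) := by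
    ring
  rw [e4]
  exact add_le_add h1 h2

theorem t_NEC : S_NEC := by
  intro d m hd hm A hA
  by_contra hcon
  push Not at hcon
  have hstep := step1 A hcon
  choose q hq0 hqN hqv using fun k : ℕ => hstep ((1 / 2 : ℝ) ^ k) (by positivity) (k + 1)
  set C : ℕ := ⌈CA A⌉₊ with hC
  set N : ℕ → ℕ := fun k => C * supNorm (q k) with hN
  set v : ℕ → ℝ := fun k => (1 + d) * distIntVec (ev A (q k)) with hv
  have hvnn : ∀ k, 0 ≤ v k := fun k => mul_nonneg (by positivity) (distIntVec_nonneg _)
  have hsum : Summable (fun k => v k * ((N k : ℝ) + 1) ^ (d + m)) := by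
    refine Summable.of_nonneg_of_le (fun k => mul_nonneg (hvnn k) (by positivity)) (fun k => ?_)
      ((summable_geometric_of_lt_one (r := (1 / 2 : ℝ)) (by norm_num) (by norm_num)).mul_left
        ((1 + (d : ℝ)) * ((C : ℝ) + 1) ^ (d + m)))
    have h1 : (1 : ℝ) ≤ supNorm (q k) := by exact_mod_cast supNorm_pos (hq0 k)
    have h2 : (N k : ℝ) + 1 ≤ ((C : ℝ) + 1) * supNorm (q k) := by
      simp only [hN]
      push_cast
      linarith
    have h3 : ((N k : ℝ) + 1) ^ (d + m) ≤ (((C : ℝ) + 1) * supNorm (q k)) ^ (d + m) :=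
      pow_le_pow_left₀ (by positivity) h2 _
    calc v k * ((N k : ℝ) + 1) ^ (d + m)
        ≤ v k * (((C : ℝ) + 1) * supNorm (q k)) ^ (d + m) :=
          mul_le_mul_of_nonneg_left h3 (hvnn k)
      _ = (1 + (d : ℝ)) * ((C : ℝ) + 1) ^ (d + m) *
            ((supNorm (q k) : ℝ) ^ (d + m) * distIntVec (ev A (q k))) := by
          rw [mul_pow]
          simp only [hv]
          ring
      _ ≤ _ := mul_le_mul_of_nonneg_left (hqv k).le (by positivity)
  obtain ⟨ψ, hψ, hψs, hψv⟩ := exists_psi (d + m) (by omega) N v hvnn hsum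
  have hvol := hA ψ hψ hψs
  have hsub : closedBall (0 : Fin d → ℝ) 1 ⊆ {x : Fin d → ℝ | point A x ∈ W ψ} := by
    intro x hx
    show point A x ∈ W ψ
    unfold W
    show {z : Fin (d + m) → ℤ | z ≠ 0 ∧
      distInt (∑ i, (z i : ℝ) * point A x i) < ψ (supNorm z)}.Infinite
    apply Set.Infinite.of_image supNorm
    apply Set.infinite_of_forall_exists_gt
    intro a
    refine ⟨supNorm (zz A (q a)), ⟨zz A (q a), ⟨?_, ?_⟩, rfl⟩, ?_⟩
    · intro h0
      have h1 := supNorm_zz_ge A (q a)
      rw [h0] at h1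
      have h2 := hqN a
      have h3 : supNorm (0 : Fin (d + m) → ℤ) = 0 := by
        unfold supNorm
        simp
      omega
    · rw [distInt_lt_iff]
      refine ⟨-round (ev A (q a) 0), ?_⟩
      refine lt_of_le_of_lt (value_le A (q a) hx) ?_
      exact hψv a _ (supNorm_zz_le A (hq0 a))
    · have h1 := supNorm_zz_ge A (q a)
      have h2 := hqN a
      omega
  have hpos : 0 < volume (closedBall (0 : Fin d → ℝ) 1) :=
    Metric.measure_closedBall_pos volume 0 one_pos
  exact absurd (measure_mono_null hsub hvol) hpos.ne'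

end Pool.Agent.Y409.GA
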